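import Mathlib
import Pool.Agent.H.MP_44afb3_an.A

set_option autoImplicit false

namespace Pool.Agent.Results.MP_44afb3_an.Counter

open Pool.Agent.H.MP_44afb3_an

universe w

/-- closed span of two subspaces -/
def join {H : Type w} [NormedAddCommGroup H] [InnerProductSpace ℂ H] (M N : Submodule ℂ H) :
    Submodule ℂ H :=
  (M ⊔ N).topologicalClosure

/-- Boolean algebra of closed subspaces -/
def IsBA {H : Type w} [NormedAddCommGroup H] [InnerProductSpace ℂ H]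
    (E : Set (Submodule ℂ H)) : Prop :=
  (∀ M ∈ E, IsClosed (M : Set H)) ∧ ⊥ ∈ E ∧ ⊤ ∈ E ∧ (∀ M ∈ E, ∀ N ∈ E, M ⊓ N ∈ E ∧ join M N ∈ E) ∧
    (∀ L ∈ E, ∀ M ∈ E, ∀ N ∈ E, L ⊓ join M N = join (L ⊓ M) (L ⊓ N)) ∧
    ∀ M ∈ E, ∃ N ∈ E, M ⊓ N = ⊥ ∧ join M N = ⊤

/-- every subfamily has a supremum in the family -/
def IsCompl' {H : Type w} [NormedAddCommGroup H] [InnerProductSpace ℂ H]
    (E : Set (Submodule ℂ H)) : Prop :=
  ∀ S ⊆ E, ∃ M ∈ E, (∀ N ∈ S, N ≤ M) ∧ ∀ P ∈ E, (∀ N ∈ S, N ≤ P) → M ≤ P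

/-- `Alg` -/
def Alg {H : Type w} [NormedAddCommGroup H] [InnerProductSpace ℂ H]
    (E : Set (Submodule ℂ H)) : Set (H →L[ℂ] H) :=
  {T | ∀ N ∈ E, ∀ x ∈ N, T x ∈ N}

/-- `Lat` -/
def Lat {H : Type w} [NormedAddCommGroup H] [InnerProductSpace ℂ H]
    (A : Set (H →L[ℂ] H)) : Set (Submodule ℂ H) :=
  {N | IsClosed (N : Set H) ∧ ∀ T ∈ A, ∀ x ∈ N, T x ∈ N}

/-- lattice isomorphic families -/
def LatIso {H : Type} [NormedAddCommGroup H] [InnerProductSpace ℂ H] {K : Type w}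
    [NormedAddCommGroup K] [InnerProductSpace ℂ K] (E : Set (Submodule ℂ H))
    (F : Set (Submodule ℂ K)) : Prop :=
  ∃ φ : Submodule ℂ H → Submodule ℂ K, Set.BijOn φ E F ∧
    ∀ M ∈ E, ∀ N ∈ E, φ (M ⊓ N) = φ M ⊓ φ N ∧ φ (join M N) = join (φ M) (φ N)

theorem result : ∃ (H : Type) (_ : NormedAddCommGroup H) (_ : InnerProductSpace ℂ H)
    (_ : CompleteSpace H) (E : Set (Submodule ℂ H)), IsBA E ∧ IsCompl' E ∧
    ∀ (K : Type w) [NormedAddCommGroup K] [InnerProductSpace ℂ K] [CompleteSpace K]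
      (F : Set (Submodule ℂ K)), IsBA F → F = Lat (Alg F) → ¬ LatIso E F := by
  obtain ⟨B, _, b1, b2, b3⟩ := exists_B
  obtain ⟨Ω, r, r1, r2, r3, r4, r5⟩ := stone B
  have mi : ∀ a b, M (r a) ⊓ M (r b) = M (r (a ⊓ b)) := fun a b => by rw [r1, M_inter]
  have ms : ∀ a b, join (M (r a)) (M (r b)) = M (r (a ⊔ b)) := fun a b => by
    rw [r2, M_union, join]
  have ml : ∀ a b, M (r a) ≤ M (r b) ↔ a ≤ b := fun a b =>
    ⟨fun h => r5 a b (M_le h), fun h => by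
      rw [← inf_eq_left, mi, inf_eq_left.2 h]⟩
  refine ⟨lp (fun _ : Ω => ℂ) 2, inferInstance, inferInstance, inferInstance,
    Set.range fun b => M (r b), ⟨?_, ⟨⊥, by simp only [r3, M_empty]⟩,
      ⟨⊤, by simp only [r4, M_univ]⟩, ?_, ?_, ?_⟩, ?_, ?_⟩
  · rintro _ ⟨a, rfl⟩
    exact M_closed _
  · rintro _ ⟨a, rfl⟩ _ ⟨b, rfl⟩
    exact ⟨⟨_, (mi a b).symm⟩, ⟨_, (ms a b).symm⟩⟩
  · rintro _ ⟨a, rfl⟩ _ ⟨b, rfl⟩ _ ⟨c, rfl⟩
    simp only [mi, ms]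
    rw [inf_sup_left]
  · rintro _ ⟨a, rfl⟩
    refine ⟨_, ⟨aᶜ, rfl⟩, ?_, ?_⟩
    · simp only [mi]
      rw [inf_compl_eq_bot, r3, M_empty]
    · simp only [ms]
      rw [sup_compl_eq_top, r4, M_univ]
  · intro S hS
    obtain ⟨a, ha⟩ := b2 {b | M (r b) ∈ S}
    refine ⟨_, ⟨a, rfl⟩, fun N hN => ?_, ?_⟩
    · obtain ⟨b, rfl⟩ := hS hN
      exact (ml _ _).2 (ha.1 hN)
    · rintro _ ⟨c, rfl⟩ h
      exact (ml _ _).2 (ha.2 fun b hb => (ml _ _).1 (h _ hb))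
  · rintro K _ _ _ F _ hF ⟨φ, h1, h2⟩
    refine no_iso b1 b3 (Alg F) F (fun N => by rw [Set.ext_iff] at hF; exact hF N)
      (fun b => φ (M (r b))) (fun b => h1.1 ⟨b, rfl⟩) (fun N hN => ?_) (fun a b h => ?_)
      fun a b => ?_
    · obtain ⟨_, ⟨b, rfl⟩, e⟩ := h1.2.2 hN
      exact ⟨b, e⟩
    · have := h1.2.1 ⟨a, rfl⟩ ⟨b, rfl⟩ h
      exact le_antisymm ((ml _ _).1 this.le) ((ml _ _).1 this.ge)
    · rw [← mi]
      exact (h2 _ ⟨a, rfl⟩ _ ⟨b, rfl⟩).1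

end Pool.Agent.Results.MP_44afb3_an.Counter
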